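import Pool.Agent.Q8.MC.Real

/-!
# MP_6dddb9_nt: the m-caliber of discriminant `p q` modulo four

Let `p < q` be primes, `p ≡ q ≡ 1` modulo `4`, `p = x_p² + y_p²`, `q = x_q² + y_q²` with
`0 < x_p < y_p`, `0 < x_q < y_q`, and let `x_p` and `x_q` have different parity. We prove

  `κ⁺(p q) ≡ 1 - (-1) ^ x_p (q / p)` modulo `4`,

which answers Q1 (the statement is true).

The proof. Let `D = p q`. The number `κ⁺(D)` is the number of the elements of the set `X` of the
forms `a x² + b x y - c y²`, `a, c > 0`, `b² + 4 a c = D`, of positive color (a condition modulo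
`4` on `b` and modulo `2` on `a` and `c`). On `X` there are two involutions `τ (a, b, c) = (c, b, a)`
and `ψ`, and the cycles of `Φ = τ ψ` are the classes of the forms under the operation
`f ↦ det (g) f ∘ g` of `GL_2(ℤ)` (river theorem). The involution `ψ` has two fixed points, given by
the factorizations `1 · D` and `p · q`, and the fixed points of `τ` are given by the two
representations `D = h² + 4 m²`.

If `t² - D u² = -4` has no solution, all cycles have even length, there are two cycles stable under
the involutions, one contains the fixed points of `ψ`, the other one those of `τ`. Their lengths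
modulo `4` are given by the sign `s` for which `p X² - q Y² = 4 s` has a solution, and by the sign
`s (-1) ^ x_p`: the second one comes from an explicit transformation of the two forms
`(m, h, m)`, built from `p = x_p² + y_p²`, `q = x_q² + y_q²` and `X, Y`. The other cycles come in
pairs.

If `t² - D u² = -4` has a solution, all cycles have odd length, the two stable ones contain one fixed
point of `ψ` each, and half of such a cycle is given by a matrix `P` with `P Pᵀ` explicit in terms of
the least solution `(t, u)`. In Gaussian integers this gives the sum of the two lengths modulo `4`.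
The other cycles come in pairs; the number of the pairs is determined by the genera: the Hecke
correspondence of a prime `l` which is not a square modulo `p` and modulo `q` (Dirichlet) is a
bijection between the two genera, and so there are twice as many cycles as in the principal genus.
-/

set_option autoImplicit false

namespace Pool.Agent.Results.MP_6dddb9_nt.Congruence

/-- `w` is a real quadratic irrational of discriminant `D`, and `w'` is its conjugate: `w` and
`w' ≠ w` are the roots of `a X² + b X + c`, where `a > 0`, `gcd (a, b, c) = 1`, and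
`D = b² - 4 a c`. -/
def IsConjugate (D : ℤ) (w w' : ℝ) : Prop :=
  Irrational w ∧ ∃ a b c : ℤ, 0 < a ∧ Int.gcd a (Int.gcd b c) = 1 ∧
    (a : ℝ) * w ^ 2 + b * w + c = 0 ∧ (a : ℝ) * w' ^ 2 + b * w' + c = 0 ∧ w' ≠ w ∧
    b ^ 2 - 4 * a * c = D

/-- The m-reduced numbers of discriminant `D`: `w > 1` and `0 < w' < 1`. -/
def mReduced (D : ℤ) : Set ℝ := {w | ∃ w', IsConjugate D w w' ∧ 1 < w ∧ 0 < w' ∧ w' < 1}

/-- The m-caliber `κ⁺(D)`. -/
noncomputable def kappaPlus (D : ℤ) : ℕ := (mReduced D).ncard

/-- **The congruence for the m-caliber of discriminant `p q`.** -/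
theorem result (p q : ℕ) [Fact p.Prime] [Fact q.Prime] (hpq : p < q) (hp : p % 4 = 1)
    (hq : q % 4 = 1) (xp yp xq yq : ℕ) (hxp : 0 < xp) (hyp : xp < yp) (hrp : p = xp ^ 2 + yp ^ 2)
    (hxq : 0 < xq) (hyq : xq < yq) (hrq : q = xq ^ 2 + yq ^ 2) (hpar : ¬ xp ≡ xq [MOD 2]) :
    (mReduced (p * q)).Finite ∧
      (kappaPlus (p * q) : ℤ) ≡ 1 - (-1) ^ xp * legendreSym p q [ZMOD 4] := by
  have H : Pool.Agent.Q8.MC.Reps (p : ℤ) (q : ℤ) xp yp xq yq := by
    refine ⟨Nat.prime_iff_prime_int.1 Fact.out, Nat.prime_iff_prime_int.1 Fact.out, ?_, ?_, ?_, ?_,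
      ?_, ?_, ?_, ?_, ?_, ?_, ?_⟩
    · exact_mod_cast (Fact.out : p.Prime).pos
    · exact_mod_cast hpq
    · omega
    · omega
    · exact_mod_cast hxp
    · exact_mod_cast hyp
    · exact_mod_cast hrp.symm
    · exact_mod_cast hxq
    · exact_mod_cast hyq
    · exact_mod_cast hrq.symm
    · intro h
      apply hpar
      unfold Nat.ModEq
      omega
  have hD0 : (0 : ℤ) < (p : ℤ) * q := mul_pos H.p_pos (H.p_pos.trans H.p_lt)
  obtain ⟨h1, h2⟩ := Pool.Agent.Q8.MC.mRed_card H.pq_mod hD0 H.squarefree H.not_square
  refine ⟨h1, ?_⟩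
  have h3 : kappaPlus (p * q) = Fintype.card (Pool.Agent.Q8.MC.XX ((p : ℤ) * q)) := h2
  have h4 := Pool.Agent.Q8.MC.card_XX H
  have heps : Pool.Agent.Q8.MC.eps (xp : ℤ) = (-1) ^ xp := by
    unfold Pool.Agent.Q8.MC.eps
    split_ifs with h
    · rw [Even.neg_one_pow]
      exact Nat.even_iff.2 (by omega)
    · rw [Odd.neg_one_pow]
      exact Nat.odd_iff.2 (by omega)
  rw [h3]
  rw [heps] at h4
  have h5 : ((Fintype.card (Pool.Agent.Q8.MC.XX ((p : ℤ) * q)) : ℤ) : ZMod 4) =
      ((1 - (-1) ^ xp * legendreSym p q : ℤ) : ZMod 4) := by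
    push_cast
    push_cast at h4
    exact h4
  exact (ZMod.intCast_eq_intCast_iff _ _ 4).1 h5

end Pool.Agent.Results.MP_6dddb9_nt.Congruence
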